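import Mathlib
import Pool.Agent.X322.Be5

/-!
# Transitivity and the locally eventually onto property for `x ↦ βx + α mod 1`
-/

set_option autoImplicit false

namespace Pool.Agent.Results.MP_ce4ed9_an.CountableExceptions

open Set Function

/-- the phase space `[0,1)` with its usual topology -/
abbrev X : Type := Set.Ico (0 : ℝ) 1

/-- the map `x ↦ βx + α mod 1` -/
noncomputable def T (α β : ℝ) (x : X) : X :=
  ⟨Int.fract (β * (x : ℝ) + α), Int.fract_nonneg _, Int.fract_lt_one _⟩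

/-- topological transitivity -/
def Transitive (f : X → X) : Prop :=
  ∀ U V : Set X, IsOpen U → IsOpen V → U.Nonempty → V.Nonempty →
    ∃ n, 1 ≤ n ∧ (f^[n] '' U ∩ V).Nonempty

/-- locally eventually onto -/
def LEO (f : X → X) : Prop :=
  ∀ U : Set X, IsOpen U → U.Nonempty → ∃ n, 1 ≤ n ∧ f^[n] '' U = Set.univ

/-- the parameters `(α, β)` -/
def Params : Set (ℝ × ℝ) := {p | 1 < p.2 ∧ p.2 ≤ 2 ∧ 0 ≤ p.1 ∧ p.1 + p.2 ≤ 2}

/-- the parameters of the maps that are transitive but not locally eventually onto -/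
def E : Set (ℝ × ℝ) := {p | p ∈ Params ∧ Transitive (T p.1 p.2) ∧ ¬ LEO (T p.1 p.2)}

theorem coe_iter {α β : ℝ} (h : X322.Be.Par α β) (n : ℕ) (x : X) :
    (((T α β)^[n] x : X) : ℝ) = (X322.Be.ff α β)^[n] (x : ℝ) := by
  induction n with
  | zero => rfl
  | succ n ih =>
    rw [iterate_succ_apply', iterate_succ_apply', ← ih]
    exact h.fract_eq ((T α β)^[n] x).2

theorem tr {α β : ℝ} (h : X322.Be.Par α β) (hT : Transitive (T α β)) : X322.Be.Tr α β := by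
  apply h.tr_of
  intro U W hU hW hUne hWne hU01 hW01
  obtain ⟨x, hx⟩ := hUne
  obtain ⟨w, hw⟩ := hWne
  have hUX : (Subtype.val ⁻¹' U : Set X).Nonempty := ⟨⟨x, (hU01 hx).1.le, (hU01 hx).2⟩, hx⟩
  have hWX : (Subtype.val ⁻¹' W : Set X).Nonempty := ⟨⟨w, (hW01 hw).1.le, (hW01 hw).2⟩, hw⟩
  obtain ⟨n, _, y, ⟨z, hz, hzy⟩, hy⟩ := hT (Subtype.val ⁻¹' U) (Subtype.val ⁻¹' W)
    (hU.preimage continuous_subtype_val) (hW.preimage continuous_subtype_val) hUX hWX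
  refine ⟨n, z, hz, ?_⟩
  rw [← coe_iter h, hzy]
  exact hy

theorem leo {α β : ℝ} (h : X322.Be.Par α β)
    (hL : ∀ U : Set ℝ, IsOpen U → U.Nonempty → U ⊆ Ioo 0 1 →
      ∃ N, X322.Be.Im α β N U = Ioo 0 1) : LEO (T α β) := by
  intro U' hU' hne
  obtain ⟨O, hO, rfl⟩ := isOpen_induced_iff.1 hU'
  obtain ⟨x, hx⟩ := hne
  have hxO : (x : ℝ) ∈ O := hx
  obtain ⟨ε, hε, hball⟩ := Metric.isOpen_iff.1 hO _ hxO
  rw [Real.ball_eq_Ioo] at hball
  have hx1 := x.2.2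
  have hx0 := x.2.1
  have hm : 0 < min ε (1 - (x : ℝ)) := lt_min hε (by linarith)
  have hm1 := min_le_left ε (1 - (x : ℝ))
  have hm2 := min_le_right ε (1 - (x : ℝ))
  obtain ⟨N, hN⟩ := hL (O ∩ Ioo 0 1) (hO.inter isOpen_Ioo)
    ⟨(x : ℝ) + min ε (1 - (x : ℝ)) / 2, hball ⟨by linarith, by linarith⟩, by linarith,
      by linarith⟩ inter_subset_right
  refine ⟨N + 1, by omega, ?_⟩
  apply eq_univ_of_forall
  intro y
  rcases lt_or_ge 0 (y : ℝ) with hy | hy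
  · have h1 : (y : ℝ) ∈ X322.Be.Im α β (N + 1) (O ∩ Ioo 0 1) := by
      rw [X322.Be.Im_succ, hN, h.Im_one_full]
      exact ⟨hy, y.2.2⟩
    obtain ⟨z, hz, _, hzy⟩ := h1
    refine ⟨⟨z, hz.2.1.le, hz.2.2⟩, hz.1, ?_⟩
    apply Subtype.ext
    rw [coe_iter h]
    exact hzy
  · have hy0 : (y : ℝ) = 0 := le_antisymm hy y.2.1
    have h1 : X322.Be.cc α β ∈ X322.Be.Im α β N (O ∩ Ioo 0 1) := by
      rw [hN]
      exact ⟨h.cpos, h.clt⟩
    obtain ⟨z, hz, _, hzy⟩ := h1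
    refine ⟨⟨z, hz.2.1.le, hz.2.2⟩, hz.1, ?_⟩
    apply Subtype.ext
    rw [coe_iter h, iterate_succ_apply']
    show X322.Be.ff α β ((X322.Be.ff α β)^[N] z) = _
    rw [hzy, X322.Be.ff_ge le_rfl, h.mul_cc, hy0]
    ring

theorem result : E.Countable ∧ ∀ p ∈ E, ∃ d : ℕ, 1 ≤ d ∧ p.2 ^ d = 2 := by
  have key : ∀ p ∈ E, (∃ d : ℕ, 1 ≤ d ∧ p.2 ^ d = 2) ∧ IsAlgebraic ℚ p.1 ∧
      IsAlgebraic ℚ p.2 := by
    rintro p ⟨⟨h1, _, h3, h4⟩, hT, hL⟩
    have h : X322.Be.Par p.1 p.2 := ⟨h1, h3, h4⟩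
    rcases h.main (tr h hT) with h5 | h5
    · exact h5
    · exact absurd (leo h h5) hL
  refine ⟨?_, fun p hp => (key p hp).1⟩
  refine ((Algebraic.countable ℚ ℝ).prod (Algebraic.countable ℚ ℝ)).mono ?_
  intro p hp
  exact ⟨(key p hp).2.1, (key p hp).2.2⟩

end Pool.Agent.Results.MP_ce4ed9_an.CountableExceptions
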